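import Mathlib
import Pool.Agent.Helper102.KsdL

/-! Copy of helper102's proof of S08929 (without the import of the frozen statement). -/

set_option autoImplicit false

namespace Pool.Agent.H118W.KSD

open Pool.Agent.Helper102.KsdL Topology Filter

/-- For Tychonoff X, Y: if X is a countable intersection of σ-compact sets in some compact Hausdorff space containing it, and C_p(X), C_p(Y) are linearly homeomorphic in the pointwise topology, then Y has the same property. -/
theorem main :
  ∀ (X Y : Type) [TopologicalSpace X] [TopologicalSpace Y] [T35Space X] [T35Space Y],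
    (∃ (K : Type) (_ : TopologicalSpace K), CompactSpace K ∧ T2Space K ∧
      ∃ e : X → K, Topology.IsEmbedding e ∧
        ∃ A : ℕ → ℕ → Set K, (∀ n m, IsCompact (A n m)) ∧ Set.range e = ⋂ n, ⋃ m, A n m) →
    (∃ L : C(X, ℝ) ≃ₗ[ℝ] C(Y, ℝ),
      @Continuous C(X, ℝ) C(Y, ℝ)
        (TopologicalSpace.induced (fun f : C(X, ℝ) => (f : X → ℝ)) inferInstance)
        (TopologicalSpace.induced (fun g : C(Y, ℝ) => (g : Y → ℝ)) inferInstance)
        (fun f => L f) ∧
      @Continuous C(Y, ℝ) C(X, ℝ)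
        (TopologicalSpace.induced (fun g : C(Y, ℝ) => (g : Y → ℝ)) inferInstance)
        (TopologicalSpace.induced (fun f : C(X, ℝ) => (f : X → ℝ)) inferInstance)
        (fun g => L.symm g)) →
    (∃ (K : Type) (_ : TopologicalSpace K), CompactSpace K ∧ T2Space K ∧
      ∃ e : Y → K, Topology.IsEmbedding e ∧
        ∃ A : ℕ → ℕ → Set K, (∀ n m, IsCompact (A n m)) ∧ Set.range e = ⋂ n, ⋃ m, A n m) := by
  classical
  intro X Y _ _ _ _ hK hL
  obtain ⟨K, _, hKc, hK2, e, he, A, hAc, hA⟩ := hK
  obtain ⟨T, hT1', hT2'⟩ := hL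
  have hT1 : @Continuous C(X, ℝ) (Y → ℝ)
            (TopologicalSpace.induced (fun g : C(X, ℝ) => (g : X → ℝ))
              (inferInstance : TopologicalSpace (X → ℝ)))
            (inferInstance : TopologicalSpace (Y → ℝ))
            (fun g => ((T g : C(Y, ℝ)) : Y → ℝ)) := continuous_induced_rng.1 hT1'
  have hT2 : @Continuous C(Y, ℝ) (X → ℝ)
            (TopologicalSpace.induced (fun g : C(Y, ℝ) => (g : Y → ℝ))
              (inferInstance : TopologicalSpace (Y → ℝ)))
            (inferInstance : TopologicalSpace (X → ℝ))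
            (fun g => ((T.symm g : C(X, ℝ)) : X → ℝ)) := continuous_induced_rng.1 hT2'
  obtain ⟨lam, hlam⟩ := exists_lam T.toLinearMap hT1
  have hlam' : ∀ f y, T f y = (lam y).sum (fun x c => c * f x) := hlam
  -- increasing compact sets
  let A' : ℕ → ℕ → Set K := fun k j => ⋃ i ∈ Finset.range (j + 1), A k i
  have hA'c : ∀ k j, IsCompact (A' k j) := fun k j =>
    (Finset.range (j + 1)).isCompact_biUnion fun i _ => hAc k i
  have hA'mono : ∀ k i j, i ≤ j → A' k i ⊆ A' k j := by
    intro k i j hij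
    apply Set.biUnion_subset_biUnion_left
    intro a ha
    simp only [Finset.coe_range, Set.mem_Iio] at ha ⊢
    omega
  have hA'sub : ∀ k j, A' k j ⊆ ⋃ m, A k m := by
    intro k j
    apply Set.iUnion₂_subset
    intro i _
    exact Set.subset_iUnion _ _
  have hcovX : ∀ (x : X) k, ∃ j, e x ∈ A' k j := by
    intro x k
    have h1 : e x ∈ ⋂ n, ⋃ m, A n m := by rw [← hA]; exact ⟨x, rfl⟩
    obtain ⟨j, hj⟩ := Set.mem_iUnion.1 (Set.mem_iInter.1 h1 k)
    exact ⟨j, Set.mem_biUnion (by simp) hj⟩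
  -- the map to functionals
  let Φ : Y → (C(K, ℝ) → ℝ) := fun y F => T (F.comp ⟨e, he.continuous⟩) y
  have hΦ : Continuous Φ := continuous_pi fun F => (T (F.comp ⟨e, he.continuous⟩)).continuous
  let Q : (n : ℕ) → (m : ℕ) → Set K → Set (C(K, ℝ) → ℝ) := fun n m B =>
    (fun p : (Fin n → ℝ) × (Fin n → K) => fun F : C(K, ℝ) => ∑ i, p.1 i * F (p.2 i)) ''
      ((Set.pi Set.univ (fun _ => Set.Icc (-(m : ℝ)) (m : ℝ))) ×ˢ (Set.pi Set.univ (fun _ => B)))
  have hQ : ∀ n m B, IsCompact B → IsCompact (Q n m B) := by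
    intro n m B hB
    apply IsCompact.image
    · exact (isCompact_univ_pi fun _ => isCompact_Icc).prod (isCompact_univ_pi fun _ => hB)
    · fun_prop
  -- the closed sets, indexed by codes
  let C : ℕ → ℕ → Set Y := fun k t =>
    Φ ⁻¹' (Q (Nat.unpair t).1 (Nat.unpair (Nat.unpair t).2).1 (A' k (Nat.unpair (Nat.unpair t).2).2))
  have hCclosed : ∀ k t, IsClosed (C k t) := fun k t =>
    (hQ _ _ _ (hA'c _ _)).isClosed.preimage hΦ
  have hprop : ∀ k t y, y ∈ C k t → (∀ x ∈ (lam y).support,
      e x ∈ A' k (Nat.unpair (Nat.unpair t).2).2) ∧ (lam y).support.card ≤ (Nat.unpair t).1 ∧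
      ∀ x, |lam y x| ≤ (Nat.unpair t).1 * (Nat.unpair (Nat.unpair t).2).1 := by
    rintro k t y ⟨⟨c, z⟩, ⟨hc, hz⟩, hcz⟩
    have h1 : ∀ F : C(K, ℝ), (lam y).sum (fun x a => a * F (e x)) = ∑ i, c i * F (z i) := by
      intro F
      have h2 := congrFun hcz F
      have h3 := hlam' (F.comp ⟨e, he.continuous⟩) y
      simp only [ContinuousMap.comp_apply, ContinuousMap.coe_mk] at h3
      rw [← h3]
      exact h2.symm
    obtain ⟨h4, h5, h6⟩ := uniqueness he.injective (lam y) _ c z h1
    refine ⟨fun x hx => ?_, h5, fun x => ?_⟩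
    · obtain ⟨i, hi⟩ := h4 x hx
      rw [← hi]
      exact hz i (Set.mem_univ i)
    · refine (h6 x).trans ?_
      calc ∑ i, |c i| ≤ ∑ _i : Fin (Nat.unpair t).1, ((Nat.unpair (Nat.unpair t).2).1 : ℝ) :=
            Finset.sum_le_sum fun i _ => abs_le.2 (hc i (Set.mem_univ i))
        _ = (Nat.unpair t).1 * (Nat.unpair (Nat.unpair t).2).1 := by simp
  have hcovY : ∀ k y, ∃ t, y ∈ C k t := by
    intro k y
    have h1 : ∃ j, ∀ x ∈ (lam y).support, e x ∈ A' k j := by
      choose j hj using fun x => hcovX x k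
      exact ⟨(lam y).support.sup j, fun x hx => hA'mono k _ _ (Finset.le_sup hx) (hj x)⟩
    obtain ⟨j, hj⟩ := h1
    obtain ⟨m, hm⟩ := exists_nat_ge (∑ x ∈ (lam y).support, |lam y x|)
    refine ⟨Nat.pair (lam y).support.card (Nat.pair m j), ?_⟩
    have hgoal : ∀ q : ℕ × ℕ × ℕ, q = ((lam y).support.card, m, j) →
        Φ y ∈ Q q.1 q.2.1 (A' k q.2.2) := by
      rintro q rfl
      let E := (lam y).support.equivFin
      refine ⟨(fun i => lam y (E.symm i), fun i => e (E.symm i)), ⟨?_, ?_⟩, ?_⟩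
      · intro i _
        refine abs_le.1 (le_trans ?_ hm)
        exact Finset.single_le_sum (f := fun x => |lam y x|) (fun i _ => abs_nonneg _) (E.symm i).2
      · intro i _
        exact hj _ (E.symm i).2
      · funext F
        show _ = T (F.comp ⟨e, he.continuous⟩) y
        rw [hlam' (F.comp ⟨e, he.continuous⟩) y, Finsupp.sum, ← Finset.sum_coe_sort]
        exact Equiv.sum_comp E.symm (fun x : (lam y).support => lam y x * F (e x))
    have := hgoal ((Nat.unpair (Nat.pair (lam y).support.card (Nat.pair m j))).1,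
      (Nat.unpair (Nat.unpair (Nat.pair (lam y).support.card (Nat.pair m j))).2).1,
      (Nat.unpair (Nat.unpair (Nat.pair (lam y).support.card (Nat.pair m j))).2).2) (by simp)
    exact this
  -- convergence of ultrafilters
  have hconv : ∀ (u : Ultrafilter Y) (t : ℕ → ℕ), (∀ k, C k (t k) ∈ (u : Filter Y)) →
      ∃ y0, (u : Filter Y) ≤ 𝓝 y0 := by
    intro u t ht
    refine key_convergence he.isInducing T hT2 lam hlam' u (Nat.unpair (t 0)).1
      ((Nat.unpair (t 0)).1 * (Nat.unpair (Nat.unpair (t 0)).2).1) ?_ ?_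
      (fun k => A' k (Nat.unpair (Nat.unpair (t k)).2).2) (fun k => (hA'c _ _).isClosed) ?_ ?_
    · filter_upwards [ht 0] with y hy
      exact (hprop 0 (t 0) y hy).2.1
    · filter_upwards [ht 0] with y hy
      exact (hprop 0 (t 0) y hy).2.2
    · rw [hA]
      exact Set.iInter_mono fun k => hA'sub k _
    · intro k
      filter_upwards [ht k] with y hy
      exact (hprop k (t k) y hy).1
  exact of_covers C hCclosed hcovY hconv

end Pool.Agent.H118W.KSD
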